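import Mathlib
import Pool.Agent.Hhelper70.GF.Defs
import Pool.Agent.Hhelper70.GF.Suff
import Pool.Agent.Hhelper70.GF.Nec

/-!
Characterisation of the context-free-s-complete grammar forms.
-/

namespace Pool.Agent.Results.MP_f868b6_lc.CFSCompleteness

open Pool.Agent.GF ContextFreeGrammar

/-- A grammar form `G` is context-free-s-complete if and only if for some terminal letter `c`,
all words `c ^ n` with `n ≥ 1` belong to the language of `G`, and all sufficiently long words
`c ^ n` have a derivation passing through a nonterminal that is expansive over `{c}`. -/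
theorem result {T : Type} [Finite T] (G : ContextFreeGrammar T) :
    CFSComplete G ↔
      ∃ c : T, (∀ n : ℕ, 1 ≤ n → List.replicate n c ∈ G.language) ∧
        ∃ N : ℕ, ∀ n : ℕ, N ≤ n → ∃ (A : G.NT) (p m q : ℕ), p + m + q = n ∧
          G.Derives [Symbol.nonterminal G.initial]
            (pow G c p ++ [Symbol.nonterminal A] ++ pow G c q) ∧
          G.Derives [Symbol.nonterminal A] (pow G c m) ∧ ExpansiveOn G c A := by
  constructor
  · rintro ⟨h, _⟩
    exact necessity G h
  · rintro ⟨c, h1, h2⟩
    refine ⟨?_, ?_⟩
    · rintro Δ _ L ⟨gL, rfl⟩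
      obtain ⟨G', hG', hL⟩ := sufficiency (g := G) (c := c) (by
        intro n hn
        have h3 := h1 n hn
        rw [mem_language_iff, List.map_replicate] at h3
        exact h3) h2 gL
      refine ⟨G', hG', ?_⟩
      intro w hw
      rw [hL w]
      exact ⟨fun h => ⟨hw, h⟩, fun h => h.2⟩
    · intro Δ _ G' _
      exact ⟨G'.language, ⟨G', rfl⟩, fun _ _ => Iff.rfl⟩

end Pool.Agent.Results.MP_f868b6_lc.CFSCompleteness
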